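import Pool.Agent.Helper5.KPA.StP

/-!
# Project KP, chapter A: convexity
-/

set_option autoImplicit false

namespace Pool.Agent.Helper11.KPA

open Pool.Agent.Helper5.KPA Pool.Agent.Helper52.KP MvPolynomial

private theorem pow_mem (C : Cone) (hC : Good C) (x : MvPolynomial (Fin C.m) ℂ) (hx : x ∈ C.R 1) :
    ∀ j : ℕ, x ^ j ∈ C.R j := by
  intro j
  induction j with
  | zero => simpa using hC.one
  | succ j ih => rw [pow_succ]; exact hC.mul _ _ _ _ ih hx

private theorem fr_map (C : Cone) (y : MvPolynomial (Fin C.m) ℂ) (hy : y ≠ 0)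
    (W : Submodule ℂ (MvPolynomial (Fin C.m) ℂ)) :
    Module.finrank ℂ (W.map (LinearMap.mulLeft ℂ y)) = Module.finrank ℂ W := by
  have hinj : Function.Injective (LinearMap.mulLeft ℂ y) := by
    intro a b hab
    have : y * a = y * b := hab
    exact mul_left_cancel₀ hy this
  exact (LinearEquiv.finrank_eq (Submodule.equivMapOfInjective _ hinj W)).symm

theorem hMRC (hCOP : StCOP) : StMRC := by
  intro C hC r F hF k hk
  have hr : 0 < r := hF.hr
  have hn : 0 < C.n := hC.hn
  -- a nonzero linear form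
  obtain ⟨X, hXR, hX0⟩ : ∃ X : MvPolynomial (Fin C.m) ℂ, X ∈ C.R 1 ∧ X ≠ 0 := by
    by_contra hcon
    push Not at hcon
    have h1 : ∀ i, C.X i = 0 := fun i => hcon _ (hC.XR i)
    have h2 : C.Δ = 0 := by
      refine MvPolynomial.funext fun z => ?_
      by_contra h3
      have h4 : z ∈ C.U := by
        show ev C.Δ z ≠ 0
        simpa using h3
      have h5 := hC.Xpos z h4
      have h6 : C.sz z = 0 := by
        unfold Cone.sz
        refine Finset.sum_eq_zero fun i _ => ?_
        rw [h1 i]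
        simp
      rw [h6] at h5
      exact lt_irrefl 0 h5
    exact hC.Δ0 h2
  have hXn : X ^ C.n ∈ C.R C.n := pow_mem C hC X hXR C.n
  have hXn0 : X ^ C.n ≠ 0 := pow_ne_zero _ hX0
  obtain ⟨ℓ, hℓR, hℓ0, hℓ⟩ := hCOP C hC r F hF C.n (Polynomial.C (X ^ C.n))
    (by
      intro l
      rw [Polynomial.coeff_C]
      split_ifs
      · exact hXn
      · exact (C.R C.n).zero_mem)
    (by simpa using hXn0)
  have hℓn : ℓ ^ C.n ∈ C.R C.n := pow_mem C hC ℓ hℓR C.n
  have hℓn0 : ℓ ^ C.n ≠ 0 := pow_ne_zero _ hℓ0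
  set g : ℕ → ℝ := fun p => (Module.finrank ℂ (C.R (C.n * r * k - C.n * p)) : ℝ) with hg
  have hconv : ∀ p : ℕ, p + 2 ≤ r → g (p + 1) - g p ≤ g (p + 2) - g (p + 1) := by
    intro p hp
    have := hC.fd (C.n * r * k - C.n * p)
    have := hC.fd (C.n * r * k - C.n * (p + 1))
    have := hC.fd (C.n * r * k - C.n * (p + 2))
    have hle : C.n * (p + 2) ≤ C.n * r * k := by
      calc C.n * (p + 2) ≤ C.n * r := Nat.mul_le_mul_left _ hp
        _ = C.n * r * 1 := (mul_one _).symm
        _ ≤ C.n * r * k := Nat.mul_le_mul_left _ hk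
    have e1 : C.n * (p + 1) = C.n * p + C.n := by ring
    have e2 : C.n * (p + 2) = C.n * p + C.n + C.n := by ring
    have hup : C.n + (C.n * r * k - C.n * (p + 1)) = C.n * r * k - C.n * p := by omega
    have hdn : (C.n * r * k - C.n * (p + 1)) - C.n = C.n * r * k - C.n * (p + 2) := by omega
    set A := (C.R (C.n * r * k - C.n * (p + 1))).map (LinearMap.mulLeft ℂ (X ^ C.n)) with hA
    set B := (C.R (C.n * r * k - C.n * (p + 1))).map (LinearMap.mulLeft ℂ (ℓ ^ C.n)) with hB
    set D := (C.R (C.n * r * k - C.n * (p + 2))).map (LinearMap.mulLeft ℂ (ℓ ^ C.n * X ^ C.n))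
      with hD
    have hAB : A ⊔ B ≤ C.R (C.n * r * k - C.n * p) := by
      refine sup_le ?_ ?_
      · rintro _ ⟨z, hz, rfl⟩
        rw [← hup]
        exact hC.mul _ _ _ _ hXn hz
      · rintro _ ⟨z, hz, rfl⟩
        rw [← hup]
        exact hC.mul _ _ _ _ hℓn hz
    have hinf : A ⊓ B ≤ D := by
      rintro _ ⟨⟨z, hz, rfl⟩, ⟨x, hx, hxz⟩⟩
      have hxz' : ℓ ^ C.n * x = X ^ C.n * z := hxz
      show X ^ C.n * z ∈ D
      rw [← hxz']
      by_cases hx0 : x = 0
      · rw [hx0, mul_zero]; exact D.zero_mem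
      · have hcst : ∀ y ∈ C.R (C.n * r * k - C.n * (p + 1)),
            Polynomial.C y ∈ QR C (C.n * r * k - C.n * (p + 1)) := by
          intro y hy l
          rw [Polynomial.coeff_C]
          split_ifs
          · exact hy
          · exact (C.R _).zero_mem
        obtain ⟨-, y, hy, hxy⟩ := hℓ C.n _ _ (Polynomial.C x) (Polynomial.C z) (hcst x hx)
          (hcst z hz) (by
            rw [← Polynomial.C_pow, ← Polynomial.C_mul, ← Polynomial.C_mul, hxz'])
          (by simpa using hx0)
        have h1 : x = X ^ C.n * y.coeff 0 := by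
          have h0 : (Polynomial.C x).coeff 0 = (Polynomial.C (X ^ C.n) * y).coeff 0 := by rw [hxy]
          rw [Polynomial.coeff_C_mul, Polynomial.coeff_C_zero] at h0
          exact h0
        refine ⟨y.coeff 0, ?_, ?_⟩
        · have := hy 0
          rwa [hdn] at this
        · show ℓ ^ C.n * X ^ C.n * y.coeff 0 = ℓ ^ C.n * x
          rw [h1, mul_assoc]
    have hfA : Module.finrank ℂ A = Module.finrank ℂ (C.R (C.n * r * k - C.n * (p + 1))) :=
      fr_map C _ hXn0 _
    have hfB : Module.finrank ℂ B = Module.finrank ℂ (C.R (C.n * r * k - C.n * (p + 1))) :=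
      fr_map C _ hℓn0 _
    have hfD : Module.finrank ℂ D = Module.finrank ℂ (C.R (C.n * r * k - C.n * (p + 2))) :=
      fr_map C _ (mul_ne_zero hℓn0 hXn0) _
    have : FiniteDimensional ℂ A := by rw [hA]; infer_instance
    have : FiniteDimensional ℂ B := by rw [hB]; infer_instance
    have : FiniteDimensional ℂ D := by rw [hD]; infer_instance
    have h1 := Submodule.finrank_sup_add_finrank_inf_eq A B
    have h2 := Submodule.finrank_mono hAB
    have h3 := Submodule.finrank_mono hinf
    have h4 : 2 * Module.finrank ℂ (C.R (C.n * r * k - C.n * (p + 1))) ≤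
        Module.finrank ℂ (C.R (C.n * r * k - C.n * p)) +
          Module.finrank ℂ (C.R (C.n * r * k - C.n * (p + 2))) := by omega
    have h5 : 2 * g (p + 1) ≤ g p + g (p + 2) := by
      simp only [hg]
      exact_mod_cast h4
    linarith
  have hmono : ∀ p : ℕ, p < r → g 1 - g 0 ≤ g (p + 1) - g p := by
    intro p
    induction p with
    | zero => intro _; exact le_rfl
    | succ p ih =>
      intro hp
      exact (ih (by omega)).trans (hconv p (by omega))
  have hsum : ∑ p ∈ Finset.range r, (g (p + 1) - g p) = g r - g 0 := Finset.sum_range_sub g r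
  have hge : (r : ℝ) * (g 1 - g 0) ≤ g r - g 0 := by
    rw [← hsum]
    calc (r : ℝ) * (g 1 - g 0) = ∑ _p ∈ Finset.range r, (g 1 - g 0) := by
          rw [Finset.sum_const, Finset.card_range, nsmul_eq_mul]
      _ ≤ _ := Finset.sum_le_sum fun p hp => hmono p (Finset.mem_range.1 hp)
  have hg0 : g 0 = (Module.finrank ℂ (RD C r k) : ℝ) := by
    show (Module.finrank ℂ (C.R (C.n * r * k - C.n * 0)) : ℝ) = Module.finrank ℂ (C.R (C.n * r * k))
    rw [Nat.mul_zero, Nat.sub_zero]
  have hgr : g r = (Module.finrank ℂ (RD C r (k - 1)) : ℝ) := by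
    have : C.n * r * k - C.n * r = C.n * r * (k - 1) := by
      rw [Nat.mul_sub, mul_one]
    show (Module.finrank ℂ (C.R (C.n * r * k - C.n * r)) : ℝ) =
      Module.finrank ℂ (C.R (C.n * r * (k - 1)))
    rw [this]
  have hg1 : g 1 = (Module.finrank ℂ (C.R (C.n * r * k - C.n)) : ℝ) := by
    show (Module.finrank ℂ (C.R (C.n * r * k - C.n * 1)) : ℝ) =
      Module.finrank ℂ (C.R (C.n * r * k - C.n))
    rw [Nat.mul_one]
  rw [← hg0, ← hgr, ← hg1]
  have hr' : (0 : ℝ) < r := by exact_mod_cast hr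
  have h6 : g 1 - g 0 ≤ (g r - g 0) / r := by
    rw [le_div_iff₀ hr']; linarith
  have h7 : (g 0 - g r) / r = -((g r - g 0) / r) := by ring
  rw [h7]
  linarith

end Pool.Agent.Helper11.KPA
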